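import Pool.Agent.W747.MB.Defs

set_option autoImplicit false

/-! # Derivatives of the rescaled critical orbit -/

namespace Pool.Agent.W366.MB

open Pool.Agent.W747.MB

theorem main : P_DER := by
  intro n hn c j hc
  induction j with
  | zero =>
    intro _
    refine ⟨?_, ?_⟩
    · simpa [X] using hasDerivAt_const (𝕜 := ℂ) c (0 : ℂ)
    · simpa [L, M] using hasDerivAt_const (𝕜 := ℂ) c (0 : ℂ)
  | succ j ih =>
    intro hA
    obtain ⟨hX, hL⟩ := ih fun i hi => hA i (Nat.lt_succ_of_lt hi)
    have hAj : A n c j ≠ 0 := hA j (Nat.lt_succ_self j)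
    have hn0 : (n : ℂ) ≠ 0 := by
      have : n ≠ 0 := by omega
      exact_mod_cast this
    have hA' : HasDerivAt (fun c => A n c j) (X n c j * L n c j / n) c := by
      have h := (hX.div_const (n : ℂ)).const_add 1
      exact h
    constructor
    · have h1 : HasDerivAt (fun c : ℂ => (n : ℂ) * c ^ (n - 1))
          ((n : ℂ) * (((n - 1 : ℕ) : ℂ) * c ^ (n - 1 - 1))) c :=
        (hasDerivAt_pow (n - 1) c).const_mul (n : ℂ)
      have h2 := h1.mul (hA'.pow n)
      refine h2.congr_deriv ?_
      change _ = ((n : ℂ) * c ^ (n - 1) * (A n c j) ^ n) *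
        ((n - 1) / c + X n c j * L n c j / A n c j)
      obtain ⟨m, rfl⟩ : ∃ m, n = m + 2 := ⟨n - 2, by omega⟩
      have e1 : m + 2 - 1 = m + 1 := by omega
      have e2 : m + 2 - 1 - 1 = m := by omega
      rw [e1] at *
      simp only [Nat.add_sub_cancel, Pi.pow_apply]
      generalize A (m + 2) c j = a at *
      field_simp
      push_cast
      ring
    · have h1 : HasDerivAt (fun c : ℂ => ((n : ℂ) - 1) / c) (-(((n : ℂ) - 1) / c ^ 2)) c := by
        have h := (hasDerivAt_inv hc).const_mul ((n : ℂ) - 1)
        refine (h.congr_of_eventuallyEq (Filter.Eventually.of_forall fun x => ?_)).congr_deriv ?_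
        · simp [div_eq_mul_inv]
        · field_simp
      have h2 := h1.add ((hX.mul hL).div hA' hAj)
      refine h2.congr_deriv ?_
      change _ = -(((n : ℂ) - 1) / c ^ 2) + X n c j * (L n c j ^ 2 + M n c j) / A n c j
        - (X n c j * L n c j / A n c j) ^ 2 / n
      simp only [Pi.mul_apply]
      generalize A n c j = a at *
      field_simp
      ring

end Pool.Agent.W366.MB
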